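import Pool.Agent.Q225.GH.Stm

/-!
Project GH (helper225), lemma CORE: disjoint generalised drawings of `K_{3,3}` in a graph of genus `g`.
-/

set_option autoImplicit false

namespace Pool.Agent.Q25.GH.CORE

open Finset Pool.Agent.Q225.GH

section

variable {V : Type} [Fintype V] [DecidableEq V] {H : SimpleGraph V}
variable {R : Type} [DecidableEq R]

/-- the class of `v` in the drawing `i` -/
def clsi (cls : V → Option (R × (Fin 3 ⊕ Fin 3))) (i : R) (v : V) : Option (Fin 3 ⊕ Fin 3) :=
  (cls v).bind fun p => if p.1 = i then some p.2 else none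

omit [Fintype V] [DecidableEq V] in
theorem clsi_eq (cls : V → Option (R × (Fin 3 ⊕ Fin 3))) (i : R) (v : V) (k : Fin 3 ⊕ Fin 3) :
    clsi cls i v = some k ↔ cls v = some (i, k) := by
  unfold clsi
  rcases h : cls v with _ | ⟨j, l⟩
  · simp
  · by_cases hj : j = i
    · subst hj
      simp
    · simp [hj]

/-- row `x` and column `y` of the drawing `i` -/
def RC (cls : V → Option (R × (Fin 3 ⊕ Fin 3))) (i : R) (x y : Fin 3) (a b : V) : Prop :=
  (cls a = some (i, Sum.inl x) ∧ cls b = some (i, Sum.inr y)) ∨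
    (cls a = some (i, Sum.inr y) ∧ cls b = some (i, Sum.inl x))

omit [Fintype V] [DecidableEq V] [DecidableEq R] in
theorem RC_symm (cls : V → Option (R × (Fin 3 ⊕ Fin 3))) (i : R) (x y : Fin 3) (a b : V) :
    RC cls i x y a b ↔ RC cls i x y b a := by
  unfold RC
  tauto

open Classical in
/-- the chain of the edge from row `x` to column `y` -/
noncomputable def TT (cls : V → Option (R × (Fin 3 ⊕ Fin 3))) (t : V → V → ZMod 2)
    (ht : ∀ a b, t a b = t b a) (i : R) (x y : Fin 3) : Ch H := fun e =>
  Sym2.lift ⟨fun a b => if RC cls i x y a b then t a b else 0, fun a b => by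
    simp only [RC_symm cls i x y a b, ht a b]⟩ e.1

open Classical in
omit [Fintype V] [DecidableEq V] in
theorem on_TT (cls : V → Option (R × (Fin 3 ⊕ Fin 3))) (t : V → V → ZMod 2)
    (ht : ∀ a b, t a b = t b a) (i : R) (x y : Fin 3) (d : H.Dart) :
    on (TT (H := H) cls t ht i x y) d = if RC cls i x y d.fst d.snd then t d.fst d.snd else 0 :=
  rfl

theorem sum_dart [DecidableRel H.Adj] (v : V) (f : V → ZMod 2) (hf : ∀ w, f w ≠ 0 → H.Adj v w) :
    (∑ d : H.Dart with d.fst = v, f d.snd) = ∑ w, f w := by
  classical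
  have h2 : (∑ w, f w) = ∑ w with H.Adj v w, f w := by
    rw [Finset.sum_filter]
    refine Finset.sum_congr rfl fun w _ => ?_
    by_cases h : H.Adj v w
    · rw [if_pos h]
    · rw [if_neg h]
      by_contra h0
      exact h (hf w h0)
  rw [h2]
  refine Finset.sum_bij' (fun d _ => d.snd)
    (fun w hw => (⟨(v, w), (Finset.mem_filter.1 hw).2⟩ : H.Dart)) ?_ ?_ ?_ ?_ ?_
  · intro d hd
    have := (Finset.mem_filter.1 hd).2
    refine Finset.mem_filter.2 ⟨Finset.mem_univ _, ?_⟩
    rw [← this]
    exact d.adj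
  · intro w hw
    exact Finset.mem_filter.2 ⟨Finset.mem_univ _, rfl⟩
  · intro d hd
    have := (Finset.mem_filter.1 hd).2
    refine SimpleGraph.Dart.ext _ _ (Prod.ext ?_ rfl)
    exact this.symm
  · intro w hw
    rfl
  · intro d hd
    rfl

omit [Fintype V] [DecidableEq V] in
theorem on_sum (z : Fin 3 → Fin 3 → ZMod 2) (T : Fin 3 → Fin 3 → Ch H) (d : H.Dart) :
    on (∑ x, ∑ y, z x y • T x y) d = ∑ x, ∑ y, z x y * on (T x y) d := by
  unfold on
  simp only [Finset.sum_apply, Pi.smul_apply, smul_eq_mul]

omit [Fintype V] [DecidableEq V] in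
theorem on_ne (cls : V → Option (R × (Fin 3 ⊕ Fin 3))) (t : V → V → ZMod 2)
    (ht : ∀ a b, t a b = t b a) (i : R) (z : Fin 3 → Fin 3 → ZMod 2) (d : H.Dart)
    (h : on (∑ x, ∑ y, z x y • TT (H := H) cls t ht i x y) d ≠ 0) :
    ∃ k, cls d.fst = some (i, k) := by
  classical
  rw [on_sum] at h
  obtain ⟨x, -, hx⟩ := Finset.exists_ne_zero_of_sum_ne_zero h
  obtain ⟨y, -, hy⟩ := Finset.exists_ne_zero_of_sum_ne_zero hx
  have h1 := right_ne_zero_of_mul hy
  rw [on_TT] at h1
  have h2 : RC cls i x y d.fst d.snd := by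
    by_contra hc
    rw [if_neg hc] at h1
    exact h1 rfl
  rcases h2 with h2 | h2
  · exact ⟨_, h2.1⟩
  · exact ⟨_, h2.1⟩

theorem k33 [DecidableRel H.Adj] (cls : V → Option (R × (Fin 3 ⊕ Fin 3))) (t : V → V → ZMod 2)
    (S : V → ZMod 2) (ht : ∀ a b, t a b = t b a) (hs : ∀ a b, t a b ≠ 0 → H.Adj a b)
    (hrow : ∀ a i x, cls a = some (i, Sum.inl x) → ∀ y,
      (∑ b : V with cls b = some (i, Sum.inr y), t a b) = S a)
    (hcol : ∀ a i y, cls a = some (i, Sum.inr y) → ∀ x,
      (∑ b : V with cls b = some (i, Sum.inl x), t a b) = S a)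
    (hodd : ∀ i x, (∑ a : V with cls a = some (i, Sum.inl x), S a) = 1) (i : R) :
    K33 (clsi cls i) (TT (H := H) cls t ht i) S where
  row := by
    classical
    intro v x hv y
    rw [clsi_eq] at hv
    have h1 : ∀ d : H.Dart, d.fst = v → on (TT (H := H) cls t ht i x y) d =
        (fun w => if cls w = some (i, Sum.inr y) then t v w else 0) d.snd := by
      intro d hd
      rw [on_TT]
      subst hd
      by_cases h : cls d.snd = some (i, Sum.inr y)
      · have h2 : RC cls i x y d.fst d.snd := Or.inl ⟨hv, h⟩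
        rw [if_pos h2]
        simp only [h, if_true]
      · simp only [h, if_false]
        rw [if_neg]
        rintro (h' | h')
        · exact h h'.2
        · rw [hv] at h'
          simp at h'
    rw [Finset.sum_congr rfl (fun d hd => h1 d (Finset.mem_filter.1 hd).2),
      sum_dart v (fun w => if cls w = some (i, Sum.inr y) then t v w else 0)]
    · rw [← Finset.sum_filter]
      exact hrow v i x hv y
    · intro w hw
      apply hs
      intro h0
      apply hw
      simp [h0]
  col := by
    classical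
    intro v y hv x
    rw [clsi_eq] at hv
    have h1 : ∀ d : H.Dart, d.fst = v → on (TT (H := H) cls t ht i x y) d =
        (fun w => if cls w = some (i, Sum.inl x) then t v w else 0) d.snd := by
      intro d hd
      rw [on_TT]
      subst hd
      by_cases h : cls d.snd = some (i, Sum.inl x)
      · have h2 : RC cls i x y d.fst d.snd := Or.inr ⟨hv, h⟩
        rw [if_pos h2]
        simp only [h, if_true]
      · simp only [h, if_false]
        rw [if_neg]
        rintro (h' | h')
        · rw [hv] at h'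
          simp at h'
        · exact h h'.2
    rw [Finset.sum_congr rfl (fun d hd => h1 d (Finset.mem_filter.1 hd).2),
      sum_dart v (fun w => if cls w = some (i, Sum.inl x) then t v w else 0)]
    · rw [← Finset.sum_filter]
      exact hcol v i y hv x
    · intro w hw
      apply hs
      intro h0
      apply hw
      simp [h0]
  supp := by
    classical
    intro x y d hd
    rw [on_TT] at hd
    have h2 : RC cls i x y d.fst d.snd := by
      by_contra hc
      rw [if_neg hc] at hd
      exact hd rfl
    simp only [clsi_eq]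
    exact h2
  odd := by
    intro x
    rw [← hodd i x]
    refine Finset.sum_congr ?_ fun _ _ => rfl
    ext v
    simp only [Finset.mem_filter, Finset.mem_univ, true_and, clsi_eq]

end

theorem t_CORE (hPOS : S_POS) (hK33 : S_K33) (hORTH : S_ORTH) (hRANK : S_RANK) : S_CORE := by
  classical
  intro V _ _ H g ⟨σ, hσ⟩ R _ _ cls t S ht hs hrow hcol hodd
  obtain ⟨pos, hpos⟩ := hPOS V H σ hσ.vert
  have key : ∀ i : R, ∃ z z' : Fin 3 → Fin 3 → ZMod 2,
      Cyc (∑ x, ∑ y, z x y • TT (H := H) cls t ht i x y) ∧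
      Cyc (∑ x, ∑ y, z' x y • TT (H := H) cls t ht i x y) ∧
      form pos (∑ x, ∑ y, z x y • TT (H := H) cls t ht i x y)
        (∑ x, ∑ y, z' x y • TT (H := H) cls t ht i x y) = 1 := by
    intro i
    refine hK33 V H σ pos hpos (clsi cls i) (TT (H := H) cls t ht i) S ?_
    exact k33 cls t S ht hs (fun a i x h y => by convert hrow a i x h y)
      (fun a i y h x => by convert hcol a i y h x) (fun i x => by convert hodd i x) i
  choose z z' h1 h2 h3 using key
  refine hRANK V H σ g pos hσ hpos R
    (fun i => ∑ x, ∑ y, z i x y • TT (H := H) cls t ht i x y)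
    (fun i => ∑ x, ∑ y, z' i x y • TT (H := H) cls t ht i x y) h1 h2 ?_
  intro i j
  by_cases hij : i = j
  · subst hij
    rw [if_pos rfl]
    exact h3 i
  · rw [if_neg hij]
    apply hORTH
    intro d d' hdd
    by_contra hc
    push Not at hc
    obtain ⟨k, hk⟩ := on_ne cls t ht i (z i) d hc.1
    obtain ⟨k', hk'⟩ := on_ne cls t ht j (z' j) d' hc.2
    rw [hdd, hk'] at hk
    apply hij
    simp only [Option.some.injEq, Prod.mk.injEq] at hk
    exact hk.1.symm

end Pool.Agent.Q25.GH.CORE
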